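import Mathlib

/-! Lattice polytopes, Gorenstein polytopes, lattice pyramids and Cayley polytopes. -/

namespace Pool.Agent.P.MP_92a118_co

open scoped Pointwise

/-- A point all of whose coordinates are integers. -/
def IsLatticePoint {ι : Type} (x : ι → ℝ) : Prop := ∀ i, ∃ z : ℤ, x i = z

/-- The convex hull of finitely many lattice points. -/
def IsLatticePolytope {ι : Type} (P : Set (ι → ℝ)) : Prop :=
  ∃ S : Finset (ι → ℝ), (∀ x ∈ S, IsLatticePoint x) ∧ P = convexHull ℝ (S : Set (ι → ℝ))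

/-- Isomorphism of lattice polytopes, each taken in its affine lattice: an affine map that is
injective on the affine hull of `P`, carries `P` onto `Q`, and carries the lattice points of the
affine hull of `P` onto the lattice points of the affine hull of `Q`. -/
def LatticeIso {ι κ : Type} (P : Set (ι → ℝ)) (Q : Set (κ → ℝ)) : Prop :=
  ∃ f : (ι → ℝ) →ᵃ[ℝ] (κ → ℝ), Set.InjOn f (affineSpan ℝ P) ∧ f '' P = Q ∧
    f '' {x | x ∈ affineSpan ℝ P ∧ IsLatticePoint x} = {y | y ∈ affineSpan ℝ Q ∧ IsLatticePoint y}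

/-- A lattice polytope with `0` in its interior whose dual is again a lattice polytope. -/
def IsReflexive {n : ℕ} (Q : Set (Fin n → ℝ)) : Prop :=
  IsLatticePolytope Q ∧ 0 ∈ interior Q ∧ IsLatticePolytope {y : Fin n → ℝ | ∀ x ∈ Q, -1 ≤ x ⬝ᵥ y}

/-- A full-dimensional lattice polytope `P ⊆ ℝ^d` that is Gorenstein of codegree `r`:
`r ≥ 1` is least such that `rP` has an interior lattice point, and `rP - m` is reflexive for
some lattice point `m`. -/
def IsGorensteinFull {d : ℕ} (P : Set (Fin d → ℝ)) (r : ℕ) : Prop :=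
  IsLatticePolytope P ∧
  IsLeast {k : ℕ | 1 ≤ k ∧ ∃ x ∈ interior ((k : ℝ) • P), IsLatticePoint x} r ∧
  ∃ m : Fin d → ℝ, IsLatticePoint m ∧ IsReflexive ((fun x => (r : ℝ) • x - m) '' P)

/-- A lattice polytope in any ambient space that is Gorenstein of dimension `d` and codegree `r`
once it is embedded as a full-dimensional polytope in its affine lattice. -/
def IsGorenstein {ι : Type} (P : Set (ι → ℝ)) (d r : ℕ) : Prop :=
  IsLatticePolytope P ∧ ∃ P' : Set (Fin d → ℝ), LatticeIso P P' ∧ IsGorensteinFull P' r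

/-- `P` is isomorphic to `conv (Q × {0}, (0, …, 0, 1))` for some lattice polytope `Q`. -/
def IsLatticePyramid {ι : Type} (P : Set (ι → ℝ)) : Prop :=
  ∃ (k : ℕ) (Q : Set (Fin k → ℝ)), IsLatticePolytope Q ∧
    LatticeIso P (convexHull ℝ ((fun q => (Fin.snoc q 0 : Fin (k + 1) → ℝ)) '' Q ∪
      {Pi.single (Fin.last k) 1}))

/-- The Cayley polytope: the convex hull of the union of the sets `P k × {e_k}`. -/
def cayley {ι κ : Type} [DecidableEq κ] (P : κ → Set (ι → ℝ)) : Set (ι ⊕ κ → ℝ) :=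
  convexHull ℝ (⋃ k, (fun x => Sum.elim x (Pi.single k 1)) '' P k)

/-- The Cayley polytope `C_s` of the `2s` segments `conv (0, e_i)` and `conv (0, -e_i)` of `ℝ^s`. -/
def cayleyC (s : ℕ) : Set (Fin s ⊕ (Fin s ⊕ Fin s) → ℝ) :=
  cayley (Sum.elim (fun i : Fin s => convexHull ℝ {(0 : Fin s → ℝ), Pi.single i 1})
    (fun i : Fin s => convexHull ℝ {(0 : Fin s → ℝ), -Pi.single i 1}))

end Pool.Agent.P.MP_92a118_co
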