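import Mathlib
import Pool.Agent.P.MP_92a118_co.Defs

/-! Convex-geometric lemmas linking the definitions to the combinatorial core. -/

namespace Pool.Agent.P.MP_92a118_co

open Module Finset

theorem latticeIso_image {ι κ : Type} (P : Set (ι → ℝ)) (f : (ι → ℝ) →ᵃ[ℝ] (κ → ℝ))
    (hinj : Function.Injective f) (hlat : ∀ x, IsLatticePoint (f x) ↔ IsLatticePoint x) :
    LatticeIso P (f '' P) := by
  refine ⟨f, hinj.injOn, rfl, ?_⟩
  rw [← AffineSubspace.map_span]
  ext y
  simp only [Set.mem_image, Set.mem_ofPred_eq, AffineSubspace.mem_map]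
  constructor
  · rintro ⟨x, ⟨hx, hx'⟩, rfl⟩
    exact ⟨⟨x, hx, rfl⟩, (hlat x).mpr hx'⟩
  · rintro ⟨⟨x, hx, rfl⟩, hy⟩
    exact ⟨x, ⟨hx, (hlat x).mp hy⟩, rfl⟩

theorem LatticeIso.trans {ι κ μ : Type} {P : Set (ι → ℝ)} {Q : Set (κ → ℝ)} {R : Set (μ → ℝ)}
    (h1 : LatticeIso P Q) (h2 : LatticeIso Q R) : LatticeIso P R := by
  obtain ⟨f, hf1, hf2, hf3⟩ := h1
  obtain ⟨g, hg1, hg2, hg3⟩ := h2
  refine ⟨g.comp f, ?_, ?_, ?_⟩
  · apply hg1.comp hf1
    intro x hx
    rw [← hf2, ← AffineSubspace.map_span]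
    exact AffineSubspace.mem_map_of_mem f hx
  · rw [AffineMap.coe_comp, Set.image_comp, hf2, hg2]
  · rw [AffineMap.coe_comp, Set.image_comp, hf3, hg3]

theorem IsLatticePoint.dot {d : ℕ} {x y : Fin d → ℝ} (hx : IsLatticePoint x)
    (hy : IsLatticePoint y) : ∃ z : ℤ, x ⬝ᵥ y = z := by
  choose a ha using hx
  choose b hb using hy
  refine ⟨∑ i, a i * b i, ?_⟩
  simp [dotProduct, ha, hb]

theorem IsLatticePoint.sub {ι : Type} {x y : ι → ℝ} (hx : IsLatticePoint x)
    (hy : IsLatticePoint y) : IsLatticePoint (x - y) := by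
  intro i
  obtain ⟨a, ha⟩ := hx i
  obtain ⟨b, hb⟩ := hy i
  exact ⟨a - b, by simp [ha, hb]⟩

theorem IsLatticePoint.add {ι : Type} {x y : ι → ℝ} (hx : IsLatticePoint x)
    (hy : IsLatticePoint y) : IsLatticePoint (x + y) := by
  intro i
  obtain ⟨a, ha⟩ := hx i
  obtain ⟨b, hb⟩ := hy i
  exact ⟨a + b, by simp [ha, hb]⟩

theorem exists_small_smul_mem {d : ℕ} {Q : Set (Fin d → ℝ)} (hQ : 0 ∈ interior Q)
    (z : Fin d → ℝ) : ∃ ε : ℝ, 0 < ε ∧ ε • z ∈ Q := by
  have h1 : Q ∈ nhds (0 : Fin d → ℝ) := mem_interior_iff_mem_nhds.mp hQ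
  have h2 : Filter.Tendsto (fun t : ℝ => t • z) (nhds 0) (nhds 0) := by
    have : Continuous (fun t : ℝ => t • z) := continuous_id.smul continuous_const
    simpa using this.tendsto 0
  have h3 : ∀ᶠ t : ℝ in nhdsWithin 0 (Set.Ioi 0), t • z ∈ Q :=
    (h2.eventually h1).filter_mono nhdsWithin_le_nhds
  obtain ⟨ε, h4, h5⟩ := (h3.and self_mem_nhdsWithin).exists
  exact ⟨ε, h5, h4⟩

/-- If an integral affine function is `1` at one generator and `0` at all others, the polytope is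
a lattice pyramid. -/
theorem isLatticePyramid_of_apex {d : ℕ} (S : Finset (Fin d → ℝ))
    (hS : ∀ x ∈ S, IsLatticePoint x) (a : ℤ) (y : Fin d → ℝ) (hy : IsLatticePoint y)
    (x0 : Fin d → ℝ) (hx0 : x0 ∈ S) (h1 : a + x0 ⬝ᵥ y = 1)
    (h0 : ∀ x ∈ S, x ≠ x0 → a + x ⬝ᵥ y = 0) :
    IsLatticePyramid (convexHull ℝ (S : Set (Fin d → ℝ))) := by
  classical
  let L : (Fin d → ℝ) →ₗ[ℝ] (Fin (d + 1) → ℝ) :=
    { toFun := fun x => Fin.snoc x (x ⬝ᵥ y)
      map_add' := fun x x' => by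
        ext i
        refine Fin.lastCases ?_ (fun j => ?_) i <;> simp
      map_smul' := fun c x => by
        ext i
        refine Fin.lastCases ?_ (fun j => ?_) i <;> simp }
  let g : (Fin d → ℝ) →ᵃ[ℝ] (Fin (d + 1) → ℝ) :=
    { toFun := fun x => Fin.snoc (x - x0) (a + x ⬝ᵥ y)
      linear := L
      map_vadd' := fun p v => by
        ext i
        refine Fin.lastCases ?_ (fun j => ?_) i
        · simp [L]; ring
        · simp [L]; ring }
  let A : (Fin d → ℝ) →ₗ[ℝ] (Fin (d + 1) → ℝ) :=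
    { toFun := fun x => Fin.snoc x 0
      map_add' := fun x x' => by
        ext i
        refine Fin.lastCases ?_ (fun j => ?_) i <;> simp
      map_smul' := fun c x => by
        ext i
        refine Fin.lastCases ?_ (fun j => ?_) i <;> simp }
  have hg : ∀ x, g x = Fin.snoc (x - x0) (a + x ⬝ᵥ y) := fun x => rfl
  refine ⟨d, convexHull ℝ (((S.erase x0).image (fun x => x - x0) : Finset _) : Set (Fin d → ℝ)),
    ⟨_, ?_, rfl⟩, ?_⟩
  · intro x hx
    obtain ⟨x', hx', rfl⟩ := Finset.mem_image.mp hx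
    exact (hS x' (Finset.mem_of_mem_erase hx')).sub (hS x0 hx0)
  have key : convexHull ℝ ((fun q => (Fin.snoc q 0 : Fin (d + 1) → ℝ)) ''
        convexHull ℝ (((S.erase x0).image (fun x => x - x0) : Finset _) : Set (Fin d → ℝ)) ∪
      {Pi.single (Fin.last d) 1}) = g '' convexHull ℝ (S : Set (Fin d → ℝ)) := by
    have e1 : (fun q => (Fin.snoc q 0 : Fin (d + 1) → ℝ)) = A := rfl
    rw [e1, LinearMap.image_convexHull, convexHull_convexHull_union_left,
      AffineMap.image_convexHull]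
    congr 1
    have e2 : g x0 = Pi.single (Fin.last d) 1 := by
      rw [hg, h1]
      ext i
      refine Fin.lastCases ?_ (fun j => ?_) i
      · simp
      · simp [Fin.castSucc_ne_last]
    have e3 : ∀ x ∈ S, x ≠ x0 → g x = A (x - x0) := by
      intro x hx hne
      rw [hg, h0 x hx hne]; rfl
    ext w
    simp only [Finset.coe_image, Finset.coe_erase, Set.mem_union, Set.mem_image, Set.mem_sdiff,
      Finset.mem_coe, Set.mem_singleton_iff]
    constructor
    · rintro (⟨_, ⟨x, ⟨hx, hne⟩, rfl⟩, rfl⟩ | rfl)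
      · exact ⟨x, hx, e3 x hx hne⟩
      · exact ⟨x0, hx0, e2⟩
    · rintro ⟨x, hx, rfl⟩
      by_cases hne : x = x0
      · right; rw [hne, e2]
      · left; exact ⟨_, ⟨x, ⟨hx, hne⟩, rfl⟩, (e3 x hx hne).symm⟩
  rw [key]
  apply latticeIso_image
  · intro x x' h
    rw [hg, hg] at h
    have := congrArg Fin.init h
    simpa using this
  · intro x
    rw [hg]
    constructor
    · intro h
      have h2 : IsLatticePoint (x - x0) := fun j => by simpa using h j.castSucc
      simpa using h2.add (hS x0 hx0)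
    · intro h i
      refine Fin.lastCases ?_ (fun j => ?_) i
      · obtain ⟨z, hz⟩ := h.dot hy
        exact ⟨a + z, by simp [hz]⟩
      · simpa using (h.sub (hS x0 hx0)) j

/-- Positive weights on all generators for an interior point. -/
theorem exists_pos_weights {d : ℕ} (S : Finset (Fin d → ℝ)) (r : ℝ) (hr : 0 < r)
    (m0 : Fin d → ℝ)
    (hQ : 0 ∈ interior ((fun x => r • x - m0) '' convexHull ℝ (S : Set (Fin d → ℝ)))) :
    ∃ lam : (Fin d → ℝ) → ℝ, (∀ x ∈ S, 0 < lam x) ∧ ∑ x ∈ S, lam x = r ∧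
      ∑ x ∈ S, lam x • x = m0 := by
  obtain ⟨ε, hε, p, hp, hpe⟩ := exists_small_smul_mem hQ (-∑ x ∈ S, (r • x - m0))
  obtain ⟨c, hc0, hc1, hc⟩ := Finset.mem_convexHull'.mp hp
  have hD : (0 : ℝ) < 1 + ε * S.card := by positivity
  refine ⟨fun x => r * (c x + ε) / (1 + ε * S.card), fun x hx => ?_, ?_, ?_⟩
  · have := hc0 x hx
    positivity
  · rw [← Finset.sum_div, ← Finset.mul_sum, Finset.sum_add_distrib, hc1]
    simp only [Finset.sum_const, nsmul_eq_mul]
    field_simp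
  · ext i
    have h1 := congrFun hpe i
    have h2 := congrFun hc i
    simp only [Finset.sum_apply, Pi.smul_apply, smul_eq_mul, Pi.sub_apply, Pi.neg_apply,
      Finset.sum_sub_distrib, Finset.sum_const, nsmul_eq_mul, ← Finset.mul_sum] at h1 h2 ⊢
    have h3 : ∑ x ∈ S, r * (c x + ε) / (1 + ε * S.card) * x i
        = (r * ∑ x ∈ S, c x * x i + r * ε * ∑ x ∈ S, x i) / (1 + ε * S.card) := by
      rw [Finset.mul_sum, Finset.mul_sum, ← Finset.sum_add_distrib, Finset.sum_div]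
      exact Finset.sum_congr rfl (fun x _ => by ring)
    rw [h3, h2, div_eq_iff hD.ne']
    have h4 : ((S.card : Fin d → ℝ) * m0) i = S.card * m0 i := rfl
    rw [h4] at h1
    linarith

/-- The dual polytope is already spanned by those generators at which some inequality is tight. -/
theorem dual_eq_tight {d : ℕ} (hd : 0 < d) (G T : Finset (Fin d → ℝ))
    (hD : {y : Fin d → ℝ | ∀ g ∈ G, -1 ≤ g ⬝ᵥ y} = convexHull ℝ (T : Set (Fin d → ℝ)))
    (T' : Finset (Fin d → ℝ)) (hT' : ∀ y ∈ T, (∃ g ∈ G, g ⬝ᵥ y = -1) → y ∈ T') :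
    convexHull ℝ (T : Set (Fin d → ℝ)) ⊆ convexHull ℝ (T' : Set (Fin d → ℝ)) := by
  have hcomp : IsCompact (convexHull ℝ (T : Set (Fin d → ℝ))) :=
    T.finite_toSet.isCompact_convexHull ℝ
  rw [← closure_convexHull_extremePoints hcomp (convex_convexHull ℝ _)]
  apply closure_minimal _ (T'.finite_toSet.isCompact_convexHull ℝ).isClosed
  apply convexHull_mono
  intro y hy
  apply hT' y (extremePoints_convexHull_subset hy)
  by_contra hcon
  push Not at hcon
  rw [← hD, mem_extremePoints] at hy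
  let z : Fin d → ℝ := fun _ => 1
  have hev : ∀ᶠ t : ℝ in nhds 0, ∀ g ∈ G, -1 < g ⬝ᵥ (y + t • z) ∧ -1 < g ⬝ᵥ (y - t • z) := by
    rw [Filter.eventually_all_finset]
    intro g hg
    have hlt : -1 < g ⬝ᵥ y := lt_of_le_of_ne (hy.1 g hg) (hcon g hg).symm
    have c1 : Continuous (fun t : ℝ => g ⬝ᵥ (y + t • z)) := by
      simp only [dotProduct_add, dotProduct_smul, smul_eq_mul]; fun_prop
    have c2 : Continuous (fun t : ℝ => g ⬝ᵥ (y - t • z)) := by
      simp only [dotProduct_sub, dotProduct_smul, smul_eq_mul]; fun_prop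
    refine Filter.Eventually.and ?_ ?_
    · exact c1.continuousAt.eventually (lt_mem_nhds (by simpa using hlt))
    · exact c2.continuousAt.eventually (lt_mem_nhds (by simpa using hlt))
  obtain ⟨ε, h4, h5⟩ :=
    ((hev.filter_mono (nhdsWithin_le_nhds (s := Set.Ioi 0))).and self_mem_nhdsWithin).exists
  have h6 := (hy.2 (y + ε • z) (fun g hg => (h4 g hg).1.le) (y - ε • z)
    (fun g hg => (h4 g hg).2.le) ⟨1 / 2, 1 / 2, by norm_num, by norm_num, by norm_num, by
      ext i; simp; ring⟩).1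
  have h7 := congrFun h6 ⟨0, hd⟩
  simp [z] at h7
  exact (ne_of_gt h5) h7

end Pool.Agent.P.MP_92a118_co
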