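import Mathlib

/-! Linear algebra lemmas: conic Caratheodory and a rank count. -/

namespace Pool.Agent.P.MP_92a118_co

open Module Finset

theorem conic_caratheodory {ι F : Type*} [AddCommGroup F] [Module ℝ F] [DecidableEq ι]
    (x : ι → F) (U : Finset ι) :
    ∀ (κ : ι → ℝ), (∀ u ∈ U, 0 ≤ κ u) →
    ∃ B : Finset ι, B ⊆ U ∧ ∃ μ : ι → ℝ, (∀ u ∈ B, 0 < μ u) ∧
      LinearIndependent ℝ (fun b : B => x b) ∧
      ∑ u ∈ U, κ u • x u = ∑ u ∈ B, μ u • x u := by
  induction U using Finset.strongInduction with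
  | H U ih =>
    intro κ hκ
    have key : ∀ (κ : ι → ℝ), (∀ u ∈ U, 0 ≤ κ u) → ∀ u0 ∈ U, κ u0 = 0 →
        ∃ B : Finset ι, B ⊆ U ∧ ∃ μ : ι → ℝ, (∀ u ∈ B, 0 < μ u) ∧
          LinearIndependent ℝ (fun b : B => x b) ∧
          ∑ u ∈ U, κ u • x u = ∑ u ∈ B, μ u • x u := by
      intro κ hκ u0 hu0 h0
      obtain ⟨B, hB, μ, hμ, hind, hsum⟩ := ih (U.erase u0) (Finset.erase_ssubset hu0) κ
        (fun u hu => hκ u (Finset.mem_of_mem_erase hu))
      refine ⟨B, hB.trans (Finset.erase_subset _ _), μ, hμ, hind, ?_⟩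
      rw [← hsum, ← Finset.add_sum_erase U _ hu0, h0, zero_smul, zero_add]
    by_cases hz : ∃ u0 ∈ U, κ u0 = 0
    · obtain ⟨u0, hu0, h0⟩ := hz
      exact key κ hκ u0 hu0 h0
    have hpos : ∀ u ∈ U, 0 < κ u := fun u hu =>
      lt_of_le_of_ne (hκ u hu) (fun h => hz ⟨u, hu, h.symm⟩)
    by_cases hind : LinearIndependent ℝ (fun b : U => x b)
    · exact ⟨U, subset_rfl, κ, hpos, hind, rfl⟩
    -- a dependency with a positive coefficient
    have hdep : ∃ g : ι → ℝ, ∑ u ∈ U, g u • x u = 0 ∧ ∃ u ∈ U, 0 < g u := by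
      rw [Fintype.not_linearIndependent_iff] at hind
      obtain ⟨g, hg, i, hi⟩ := hind
      let g' : ι → ℝ := fun u => if h : u ∈ U then g ⟨u, h⟩ else 0
      have hg' : ∑ u ∈ U, g' u • x u = 0 := by
        rw [← hg, ← Finset.sum_coe_sort U]
        refine Finset.sum_congr rfl (fun u _ => ?_)
        simp [g', u.2]
      have hi' : g' i ≠ 0 := by simpa [g', i.2] using hi
      rcases lt_or_gt_of_ne hi' with h | h
      · refine ⟨fun u => - g' u, ?_, i, i.2, by linarith⟩
        simp only [neg_smul, Finset.sum_neg_distrib, hg', neg_zero]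
      · exact ⟨g', hg', i, i.2, h⟩
    obtain ⟨g, hg, u1, hu1, hgu1⟩ := hdep
    have hne : (U.filter (fun u => 0 < g u)).Nonempty := ⟨u1, by simp [hu1, hgu1]⟩
    obtain ⟨u0, hu0, hmin⟩ := Finset.exists_min_image _ (fun u => κ u / g u) hne
    rw [Finset.mem_filter] at hu0
    set t := κ u0 / g u0 with ht
    have htpos : 0 < t := div_pos (hpos u0 hu0.1) hu0.2
    obtain ⟨B, hB, μ, hμ, hind, hsum⟩ := key (fun u => κ u - t * g u) (by
      intro u hu
      by_cases hgu : 0 < g u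
      · have := hmin u (by simp [hu, hgu])
        rw [le_div_iff₀ hgu] at this
        linarith
      · have h1 : t * g u ≤ 0 := mul_nonpos_of_nonneg_of_nonpos htpos.le (not_lt.mp hgu)
        linarith [hκ u hu]) u0 hu0.1 (by
      rw [ht, div_mul_cancel₀ _ hu0.2.ne', sub_self])
    refine ⟨B, hB, μ, hμ, hind, ?_⟩
    rw [← hsum]
    simp only [sub_smul, mul_smul, Finset.sum_sub_distrib, ← Finset.smul_sum, hg, smul_zero,
      sub_zero]

theorem finrank_add_card_le {E ι : Type*} [AddCommGroup E] [Module ℝ E] [FiniteDimensional ℝ E]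
    [Fintype ι] (X Y : Submodule ℝ E) (hXY : X ≤ Y) (φ : ι → Dual ℝ E)
    (hind : LinearIndependent ℝ (fun b : ι => (φ b).domRestrict Y))
    (hvan : ∀ b, ∀ x ∈ X, φ b x = 0) :
    finrank ℝ X + Fintype.card ι ≤ finrank ℝ Y := by
  let X' : Submodule ℝ Y := X.comap Y.subtype
  have h1 : finrank ℝ X' = finrank ℝ X := (Submodule.comapSubtypeEquivOfLe hXY).finrank_eq
  have h2 := Subspace.finrank_add_finrank_dualAnnihilator_eq X'
  let ψ : ι → X'.dualAnnihilator := fun b => ⟨(φ b).domRestrict Y, by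
    rw [Submodule.mem_dualAnnihilator]
    intro w hw
    exact hvan b w hw⟩
  have h3 : LinearIndependent ℝ ψ := by
    apply LinearIndependent.of_comp X'.dualAnnihilator.subtype
    exact hind
  have h4 := h3.fintype_card_le_finrank
  omega

end Pool.Agent.P.MP_92a118_co
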