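import Mathlib
import Pool.Agent.P.MP_92a118_co.Core1

/-! Positive circuits, the inequality `|J| ≤ 2 dim W_J`, and its equality case. -/

namespace Pool.Agent.P.MP_92a118_co

open Module Finset

variable {E : Type} [AddCommGroup E] [Module ℝ E]

namespace Setup.Fam

variable {S : Setup E} {I : Type} [Fintype I] [DecidableEq I] (F : S.Fam I)

omit [DecidableEq I] in
theorem m_vanish (J : Finset I) : ∀ x ∈ F.W J, S.m x = 0 := by
  apply F.vanish_W
  rintro i - ⟨v, hv, v', hv', hne⟩
  exact hne (by rw [S.hm v (F.mem_Vi.mp hv).1, S.hm v' (F.mem_Vi.mp hv').1])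

omit [DecidableEq I] in
theorem exists_circuit (J : Finset I) (u0 : Dual ℝ E) :
    ∃ B : Finset (Dual ℝ E), B ⊆ S.U ∧ ∃ μ : Dual ℝ E → ℝ, (∀ b ∈ B, 0 < μ b) ∧
      LinearIndependent ℝ (fun b : B => (b : Dual ℝ E).domRestrict (F.W J)) ∧
      ∀ x ∈ F.W J, u0 x + ∑ b ∈ B, μ b * b x = 0 := by
  classical
  obtain ⟨K, -, hK⟩ := S.exists_bound u0
  obtain ⟨κ, hκ, hsum⟩ := S.hdual (K • S.m - u0) (fun v hv => by
    simp only [LinearMap.sub_apply, LinearMap.smul_apply, S.hm v hv, smul_eq_mul, mul_one]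
    linarith [hK v hv])
  obtain ⟨B, hB, μ, hμ, hind, hsum'⟩ :=
    conic_caratheodory (fun u : Dual ℝ E => u.domRestrict (F.W J)) S.U κ hκ
  refine ⟨B, hB, μ, hμ, hind, fun x hx => ?_⟩
  have h1 := congrArg (fun φ : Dual ℝ (F.W J) => φ ⟨x, hx⟩) hsum'
  simp only [LinearMap.sum_apply, LinearMap.smul_apply, LinearMap.domRestrict_apply,
    smul_eq_mul] at h1
  have h2 := congrArg (fun φ : Dual ℝ E => φ x) hsum
  simp only [LinearMap.sum_apply, LinearMap.smul_apply, LinearMap.sub_apply, smul_eq_mul,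
    F.m_vanish J x hx] at h2
  linarith

omit [DecidableEq I] in
theorem circuit_const {J : Finset I} {u0 : Dual ℝ E} {B : Finset (Dual ℝ E)}
    {μ : Dual ℝ E → ℝ} (hrel : ∀ x ∈ F.W J, u0 x + ∑ b ∈ B, μ b * b x = 0) {i : I} (hi : i ∈ J) :
    ∀ v ∈ F.Vi i, ∀ v' ∈ F.Vi i,
      ∑ a : Option B, (Option.elim a 1 (fun b => μ b) : ℝ) *
          (Option.elim a u0 (fun b => (b : Dual ℝ E)) : Dual ℝ E) v
        = ∑ a : Option B, (Option.elim a 1 (fun b => μ b) : ℝ) *
          (Option.elim a u0 (fun b => (b : Dual ℝ E)) : Dual ℝ E) v' := by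
  intro v hv v' hv'
  have h1 := hrel _ (F.sub_mem_W hi hv hv')
  simp only [map_sub, mul_sub, Finset.sum_sub_distrib] at h1
  simp only [Fintype.sum_option, Option.elim, one_mul]
  rw [Finset.sum_coe_sort B (fun b => μ b * b v), Finset.sum_coe_sort B (fun b => μ b * b v')]
  linarith

variable [FiniteDimensional ℝ E]

omit [DecidableEq I] in
open Classical in
theorem step {J : Finset I} {u0 : Dual ℝ E} (hu0 : u0 ∈ S.U) {B : Finset (Dual ℝ E)}
    (hB : B ⊆ S.U) {μ : Dual ℝ E → ℝ} (hμ : ∀ b ∈ B, 0 < μ b)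
    (hind : LinearIndependent ℝ (fun b : B => (b : Dual ℝ E).domRestrict (F.W J)))
    (hrel : ∀ x ∈ F.W J, u0 x + ∑ b ∈ B, μ b * b x = 0) :
    (J.filter (fun i => F.Sees u0 i ∨ ∃ b ∈ B, F.Sees b i)).card ≤ B.card + 1 ∧
    finrank ℝ (F.W (J.filter (fun i => ¬ (F.Sees u0 i ∨ ∃ b ∈ B, F.Sees b i)))) + B.card
      ≤ finrank ℝ (F.W J) := by
  constructor
  · have := F.card_seen_le (C := Option B) (fun a => Option.elim a u0 (fun b => (b : Dual ℝ E)))
      (by rintro (_ | b); exacts [hu0, hB b.2])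
      (fun a => Option.elim a 1 (fun b => μ b))
      (by rintro (_ | b); exacts [one_pos, hμ b b.2])
      (J.filter (fun i => F.Sees u0 i ∨ ∃ b ∈ B, F.Sees b i))
      (fun i hi => F.circuit_const hrel (Finset.mem_filter.mp hi).1)
      (by
        intro i hi
        rcases (Finset.mem_filter.mp hi).2 with h | ⟨b, hb, h⟩
        · exact ⟨none, h⟩
        · exact ⟨some ⟨b, hb⟩, h⟩)
    simpa using this
  · have := finrank_add_card_le _ _
      (F.W_mono (Finset.filter_subset (fun i => ¬ (F.Sees u0 i ∨ ∃ b ∈ B, F.Sees b i)) J))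
      (fun b : B => (b : Dual ℝ E)) hind (by
        intro b
        apply F.vanish_W
        intro i hi hs
        exact (Finset.mem_filter.mp hi).2 (Or.inr ⟨b, b.2, hs⟩))
    simpa using this

omit [DecidableEq I] [FiniteDimensional ℝ E] in
theorem circuit_nonempty {J : Finset I} {u0 : Dual ℝ E} {B : Finset (Dual ℝ E)}
    {μ : Dual ℝ E → ℝ} (hrel : ∀ x ∈ F.W J, u0 x + ∑ b ∈ B, μ b * b x = 0) {i : I} (hi : i ∈ J)
    (hs : F.Sees u0 i) : B.Nonempty := by
  by_contra h
  rw [Finset.not_nonempty_iff_eq_empty] at h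
  subst h
  exact F.not_sees_of_vanish (fun x hx => by simpa using hrel x hx) hi hs

omit [DecidableEq I] in
theorem card_le_two_mul (J : Finset I) : J.card ≤ 2 * finrank ℝ (F.W J) := by
  classical
  induction J using Finset.strongInduction with
  | H J ih =>
    rcases J.eq_empty_or_nonempty with rfl | ⟨i, hi⟩
    · simp
    obtain ⟨u0, hu0, hs⟩ := F.exists_sees i
    obtain ⟨B, hB, μ, hμ, hind, hrel⟩ := F.exists_circuit J u0
    obtain ⟨h1, h2⟩ := F.step hu0 hB hμ hind hrel
    have h3 := (F.circuit_nonempty hrel hi hs).card_pos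
    have h4 := ih (J.filter (fun i => ¬ (F.Sees u0 i ∨ ∃ b ∈ B, F.Sees b i))) (by
      rw [Finset.filter_ssubset]
      exact ⟨i, hi, not_not.mpr (Or.inl hs)⟩)
    have h5 := Finset.card_filter_add_card_filter_not (s := J)
      (fun i => F.Sees u0 i ∨ ∃ b ∈ B, F.Sees b i)
    omega

/-! The equality case. -/

open Classical in
theorem tight_circuit (htight : Fintype.card I = 2 * finrank ℝ (F.W Finset.univ))
    {u0 : Dual ℝ E} (hu0 : u0 ∈ S.U) {i : I} (hs : F.Sees u0 i) :
    (Finset.univ.filter (fun k => F.Sees u0 k)).card = 2 ∧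
    ∀ v ∈ F.Vi i, ∀ v' ∈ F.Vi i, u0 v ≤ u0 v' + 1 := by
  obtain ⟨B, hB, μ, hμ, hind, hrel⟩ := F.exists_circuit Finset.univ u0
  obtain ⟨h1, h2⟩ := F.step hu0 hB hμ hind hrel
  have h3 := (F.circuit_nonempty hrel (Finset.mem_univ i) hs).card_pos
  have h4 := F.card_le_two_mul
    (Finset.univ.filter (fun i => ¬ (F.Sees u0 i ∨ ∃ b ∈ B, F.Sees b i)))
  have h5 := Finset.card_filter_add_card_filter_not (s := Finset.univ)
      (fun i => F.Sees u0 i ∨ ∃ b ∈ B, F.Sees b i)
  rw [Finset.card_univ] at h5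
  have hB1 : B.card = 1 := by omega
  have hJ : (Finset.univ.filter (fun i => F.Sees u0 i ∨ ∃ b ∈ B, F.Sees b i)).card = 2 := by omega
  obtain ⟨u1, rfl⟩ := Finset.card_eq_one.mp hB1
  have hu1 : u1 ∈ S.U := hB (Finset.mem_singleton_self _)
  have hκ : 0 < μ u1 := hμ _ (Finset.mem_singleton_self _)
  simp only [Finset.sum_singleton] at hrel
  have hdiff : ∀ k, ∀ v ∈ F.Vi k, ∀ v' ∈ F.Vi k, u0 v - u0 v' + μ u1 * (u1 v - u1 v') = 0 := by
    intro k v hv v' hv'
    have := hrel _ (F.sub_mem_W (Finset.mem_univ k) hv hv')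
    simpa only [map_sub] using this
  have hsees : ∀ k, F.Sees u1 k ↔ F.Sees u0 k := by
    intro k
    constructor
    · rintro ⟨v, hv, v', hv', hne⟩
      refine ⟨v, hv, v', hv', fun h => hne ?_⟩
      have := hdiff k v hv v' hv'
      rw [h, sub_self, zero_add, mul_eq_zero] at this
      rcases this with h' | h'
      · exact absurd h' hκ.ne'
      · linarith
    · rintro ⟨v, hv, v', hv', hne⟩
      refine ⟨v, hv, v', hv', fun h => hne ?_⟩
      have := hdiff k v hv v' hv'
      rw [h, sub_self, mul_zero] at this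
      linarith
  have hfilt : Finset.univ.filter (fun i => F.Sees u0 i ∨ ∃ b ∈ ({u1} : Finset _), F.Sees b i)
      = Finset.univ.filter (fun k => F.Sees u0 k) := by
    apply Finset.filter_congr
    intro k _
    simp [hsees k]
  rw [hfilt] at hJ
  refine ⟨hJ, ?_⟩
  -- the two-element dependency
  let c : Bool → Dual ℝ E := fun a => cond a u0 u1
  let κ : Bool → ℝ := fun a => cond a 1 (μ u1)
  have hconst : ∀ k, ∀ v ∈ F.Vi k, ∀ v' ∈ F.Vi k, ∑ a, κ a * c a v = ∑ a, κ a * c a v' := by
    intro k v hv v' hv'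
    have := hdiff k v hv v' hv'
    simp only [Fintype.sum_bool, c, κ, cond_true, cond_false]
    linarith
  have hge : ∀ k, F.Sees u0 k → 1 ≤ F.h u0 k + F.h u1 k := by
    intro k hk
    have := F.one_le_sum_h c (by rintro (_ | _); exacts [hu1, hu0]) κ
      (by rintro (_ | _); exacts [hκ, one_pos]) (hconst k) ⟨true, hk⟩
    simpa [Fintype.sum_bool, c] using this
  have hle : F.h u0 i + F.h u1 i ≤ 1 := by
    obtain ⟨a, b, hab, hset⟩ := Finset.card_eq_two.mp hJ
    have ha : F.Sees u0 a := by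
      have : a ∈ Finset.univ.filter (fun k => F.Sees u0 k) := by rw [hset]; simp
      exact (Finset.mem_filter.mp this).2
    have hb : F.Sees u0 b := by
      have : b ∈ Finset.univ.filter (fun k => F.Sees u0 k) := by rw [hset]; simp
      exact (Finset.mem_filter.mp this).2
    have hi : i = a ∨ i = b := by
      have : i ∈ Finset.univ.filter (fun k => F.Sees u0 k) := by simp [hs]
      rw [hset] at this
      simpa using this
    have hp : ∀ u ∈ S.U, F.h u a + F.h u b ≤ 1 := by
      intro u hu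
      have := Finset.sum_le_sum_of_subset_of_nonneg (f := fun k => F.h u k)
        (Finset.subset_univ ({a, b} : Finset I)) (fun i _ _ => F.h_nonneg _ _)
      rw [Finset.sum_pair hab] at this
      exact this.trans (F.sum_h_le hu)
    have := hp u0 hu0
    have := hp u1 hu1
    have := hge a ha
    have := hge b hb
    rcases hi with rfl | rfl <;> linarith
  have hex : ∀ v ∈ F.Vi i, u0 v - F.mn u0 i + μ u1 * (u1 v - F.mn u1 i)
      = F.h u0 i + μ u1 * F.h u1 i := by
    intro v hv
    have := F.excess_eq c κ (hconst i) hv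
    simpa [Fintype.sum_bool, c, κ] using this
  have hh0 := F.h_pos hu0 hs
  have hh1 := F.h_nonneg u1 i
  have hκ1 : μ u1 ≤ 1 := by
    obtain ⟨v, hv, hgap⟩ := F.exists_gap hu1 ((hsees i).mpr hs)
    have e1 := hex v hv
    have e2 := F.mn_le u0 hv
    by_contra hcon
    push Not at hcon
    nlinarith
  intro v hv v' hv'
  have e1 := hex v hv
  have e2 := F.mn_le u1 hv
  have e3 := F.mn_le u0 hv'
  nlinarith

open Classical in
theorem proportional (htight : Fintype.card I = 2 * finrank ℝ (F.W Finset.univ))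
    {u u' : Dual ℝ E} (hu : u ∈ S.U) (hu' : u' ∈ S.U) {i : I} (hs : F.Sees u i)
    (hs' : F.Sees u' i) : ∃ t : ℝ, ∀ x ∈ F.W Finset.univ, u' x = t * u x := by
  have hne : u.domRestrict (F.W Finset.univ) ≠ 0 := by
    intro h
    refine F.not_sees_of_vanish (J := Finset.univ) (u := u) (fun x hx => ?_) (Finset.mem_univ i) hs
    exact congrArg (fun φ : Dual ℝ (F.W Finset.univ) => φ ⟨x, hx⟩) h
  by_contra hcon
  have hind : LinearIndependent ℝ ![u.domRestrict (F.W Finset.univ),
      u'.domRestrict (F.W Finset.univ)] := by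
    rw [LinearIndependent.pair_iff' hne]
    intro a ha
    apply hcon
    refine ⟨a, fun x hx => ?_⟩
    have := congrArg (fun φ : Dual ℝ (F.W Finset.univ) => φ ⟨x, hx⟩) ha
    simpa using this.symm
  have h1 := finrank_add_card_le _ _
    (F.W_mono (Finset.subset_univ (Finset.univ.filter (fun k => ¬ (F.Sees u k ∨ F.Sees u' k)))))
    ![u, u'] (by
      convert hind using 1
      ext a : 1
      fin_cases a <;> rfl) (by
      intro b
      fin_cases b
      · apply F.vanish_W
        intro k hk h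
        exact (Finset.mem_filter.mp hk).2 (Or.inl h)
      · apply F.vanish_W
        intro k hk h
        exact (Finset.mem_filter.mp hk).2 (Or.inr h))
  have h2 := F.card_le_two_mul (Finset.univ.filter (fun k => ¬ (F.Sees u k ∨ F.Sees u' k)))
  have h3 := Finset.card_filter_add_card_filter_not (s := Finset.univ)
      (fun k => F.Sees u k ∨ F.Sees u' k)
  rw [Finset.card_univ] at h3
  have h4 : (Finset.univ.filter (fun k => F.Sees u k ∨ F.Sees u' k)).card ≤ 3 := by
    have e2 := (F.tight_circuit htight hu hs).1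
    have e3 := (F.tight_circuit htight hu' hs').1
    have e1 : Finset.univ.filter (fun k => F.Sees u k ∨ F.Sees u' k) ⊆
        Finset.univ.filter (fun k => F.Sees u k) ∪
          (Finset.univ.filter (fun k => F.Sees u' k)).erase i := by
      intro k hk
      simp only [Finset.mem_filter, Finset.mem_univ, true_and, Finset.mem_union,
        Finset.mem_erase] at hk ⊢
      by_cases hki : k = i
      · left; rw [hki]; exact hs
      · tauto
    have e4 := (Finset.card_le_card e1).trans (Finset.card_union_le _ _)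
    rw [Finset.card_erase_of_mem (by simp [hs']), e2, e3] at e4
    exact e4
  have h5 : Fintype.card (Fin (Nat.succ 0).succ) = 2 := Fintype.card_fin _
  rw [h5] at h1
  omega

theorem sees_iff (htight : Fintype.card I = 2 * finrank ℝ (F.W Finset.univ))
    {u u' : Dual ℝ E} (hu : u ∈ S.U) (hu' : u' ∈ S.U) {i : I} (hs : F.Sees u i)
    (hs' : F.Sees u' i) {k : I} (hk : F.Sees u' k) : F.Sees u k := by
  obtain ⟨t, ht⟩ := F.proportional htight hu hu' hs hs'
  obtain ⟨v, hv, v', hv', hne⟩ := hk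
  refine ⟨v, hv, v', hv', fun h => hne ?_⟩
  have := ht _ (F.sub_mem_W (Finset.mem_univ k) hv hv')
  rw [map_sub, map_sub, h, sub_self, mul_zero] at this
  linarith

end Setup.Fam

end Pool.Agent.P.MP_92a118_co
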