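import Mathlib
import Pool.Agent.P.MP_92a118_co.Core2

/-! The extremal case: a maximal family splits the height function, and the blocks pair up. -/

namespace Pool.Agent.P.MP_92a118_co

open Module Finset

variable {E : Type} [AddCommGroup E] [Module ℝ E]

theorem exists_pairing {s : ℕ} (π : Fin (2 * s) → Fin (2 * s)) (hne : ∀ i, π i ≠ i)
    (hinv : ∀ i, π (π i) = i) :
    ∃ ρ : Fin s → Fin (2 * s), Function.Bijective (Sum.elim ρ (fun j => π (ρ j))) := by
  have hcard : (Finset.univ.filter (fun i => i < π i)).card = s := by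
    have h1 : (Finset.univ.filter (fun i => i < π i)).card
        = (Finset.univ.filter (fun i => ¬ i < π i)).card := by
      apply Finset.card_bij (fun i _ => π i)
      · intro i hi
        simp only [Finset.mem_filter, Finset.mem_univ, true_and] at hi ⊢
        rw [hinv]; exact not_lt.mpr hi.le
      · intro i _ j _ h
        rw [← hinv i, h, hinv]
      · intro j hj
        simp only [Finset.mem_filter, Finset.mem_univ, true_and] at hj
        refine ⟨π j, ?_, hinv j⟩
        simp only [Finset.mem_filter, Finset.mem_univ, true_and]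
        rw [hinv]
        exact lt_of_le_of_ne (not_lt.mp hj) (hne j)
    have h2 := Finset.card_filter_add_card_filter_not (s := Finset.univ) (fun i => i < π i)
    rw [Finset.card_univ, Fintype.card_fin] at h2
    omega
  let e := (Finset.equivFinOfCardEq hcard).symm
  have hlt : ∀ j, (e j : Fin (2 * s)) < π (e j) := fun j => (Finset.mem_filter.mp (e j).2).2
  refine ⟨fun j => e j, ?_⟩
  rw [Fintype.bijective_iff_injective_and_card]
  refine ⟨?_, by simp; omega⟩
  rintro (j | j) (k | k) h
  · simp only [Sum.elim_inl] at h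
    rw [e.injective (Subtype.ext h)]
  · simp only [Sum.elim_inl, Sum.elim_inr] at h
    have h1 := hlt j
    have h2 := hlt k
    rw [h, hinv] at h1
    exact absurd h2 (not_lt.mpr h1.le)
  · simp only [Sum.elim_inl, Sum.elim_inr] at h
    have h1 := hlt j
    have h2 := hlt k
    rw [← h, hinv] at h2
    exact absurd h2 (not_lt.mpr h1.le)
  · simp only [Sum.elim_inr] at h
    have h' : (e j : Fin (2 * s)) = e k := by rw [← hinv (e j), h, hinv]
    rw [e.injective (Subtype.ext h')]

namespace Setup.Fam

variable {S : Setup E} {I : Type} [Fintype I] (F : S.Fam I)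

theorem weighted_sum : ∑ v ∈ S.V, S.lam v * ∑ i, F.uu i v = Fintype.card I := by
  simp only [Finset.mul_sum]
  rw [Finset.sum_comm, Finset.sum_congr rfl (fun i _ => S.hU1 _ (F.huu i))]
  simp

include F in
theorem card_le : (Fintype.card I : ℝ) ≤ ∑ v ∈ S.V, S.lam v := by
  rw [← F.weighted_sum]
  refine Finset.sum_le_sum (fun v hv => ?_)
  have := F.hsum v hv
  have := S.hlam v hv
  nlinarith

theorem sum_zero_or_one {v : E} (hv : v ∈ S.V) : ∑ i, F.uu i v = 0 ∨ ∑ i, F.uu i v = 1 := by
  choose k hk using fun i => S.hint _ (F.huu i) v hv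
  have h1 := F.hsum v hv
  have h2 : ∑ i, F.uu i v = ((∑ i, k i : ℕ) : ℝ) := by
    push_cast
    exact Finset.sum_congr rfl (fun i _ => hk i)
  rw [h2] at h1 ⊢
  have h3 : ∑ i, k i ≤ 1 := by exact_mod_cast h1
  generalize ∑ i, k i = n at h3
  interval_cases n <;> simp

end Setup.Fam

namespace Setup

variable [FiniteDimensional ℝ E] (S : Setup E)

theorem exists_tight {s : ℕ} (hdim : finrank ℝ E = 3 * s) (hr : ∑ v ∈ S.V, S.lam v = 2 * s) :
    ∃ F : S.Fam (Fin (2 * s)), (∀ v ∈ S.V, ∑ i, F.uu i v = 1) ∧
      Fintype.card (Fin (2 * s)) = 2 * finrank ℝ (F.W Finset.univ) := by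
  classical
  let P : ℕ → Prop := fun p => Nonempty (S.Fam (Fin p))
  have hP0 : P 0 := ⟨⟨Fin.elim0, fun i => i.elim0, fun v _ => by simp⟩⟩
  have hbd : ∀ p, P p → p ≤ 2 * s := by
    rintro p ⟨F⟩
    have := F.card_le
    rw [hr, Fintype.card_fin] at this
    exact_mod_cast this
  obtain ⟨p, ⟨F⟩, hmax⟩ : ∃ p, P p ∧ ¬ P (p + 1) := by
    refine ⟨Nat.findGreatest P (2 * s), Nat.findGreatest_spec (Nat.zero_le _) hP0, fun h => ?_⟩
    exact Nat.findGreatest_is_greatest (Nat.lt_succ_self _) (hbd _ h) h
  set w : Dual ℝ E := S.m - ∑ i, F.uu i with hw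
  have hwv : ∀ v ∈ S.V, w v = 1 - ∑ i, F.uu i v := by
    intro v hv
    simp [hw, S.hm v hv, LinearMap.sum_apply]
  obtain ⟨κ, hκ, hsum⟩ := S.hdual w (fun v hv => by
    rw [hwv v hv]; linarith [F.hsum v hv])
  obtain ⟨B, hB, μ, hμ, hind, hsum'⟩ := conic_caratheodory (fun u : Dual ℝ E => u) S.U κ hκ
  rw [← hsum] at hsum'
  have hwB : ∀ v, w v = ∑ b ∈ B, μ b * b v := by
    intro v
    rw [hsum']
    simp [LinearMap.sum_apply]
  have hle : ∀ b ∈ B, ∀ v ∈ S.V, μ b * b v ≤ w v := by
    intro b hb v hv
    rw [hwB]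
    exact Finset.single_le_sum (f := fun b => μ b * b v)
      (fun b hb => mul_nonneg (hμ b hb).le (S.nonneg (hB hb) hv)) hb
  have hhalf : ∀ b ∈ B, μ b ≤ 1 / 2 := by
    intro b hb
    by_contra hcon
    push Not at hcon
    apply hmax
    refine ⟨⟨Fin.cons b F.uu, ?_, ?_⟩⟩
    · intro i
      refine Fin.cases ?_ (fun j => ?_) i
      · exact hB hb
      · exact F.huu j
    · intro v hv
      rw [Fin.sum_univ_succ]
      simp only [Fin.cons_zero, Fin.cons_succ]
      have h1 := hle b hb v hv
      rw [hwv v hv] at h1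
      obtain ⟨k, hk⟩ := S.hint b (hB hb) v hv
      rw [hk] at h1 ⊢
      rcases F.sum_zero_or_one hv with h | h
      · rw [h] at h1 ⊢
        have h2 : (k : ℝ) < 2 := by
          by_contra h3
          push Not at h3
          nlinarith
        have h3 : k < 2 := by exact_mod_cast h2
        have h4 : k ≤ 1 := by omega
        have h5 : (k : ℝ) ≤ 1 := by exact_mod_cast h4
        linarith
      · rw [h] at h1 ⊢
        have h2 : (0 : ℝ) ≤ k := by positivity
        nlinarith
  have hcount : (2 * s : ℝ) - p = ∑ b ∈ B, μ b := by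
    have h1 : ∑ v ∈ S.V, S.lam v * w v = 2 * s - p := by
      rw [Finset.sum_congr rfl (fun v hv => by rw [hwv v hv])]
      simp only [mul_sub, mul_one, Finset.sum_sub_distrib]
      rw [hr, F.weighted_sum, Fintype.card_fin]
    rw [← h1]
    simp only [hwB, Finset.mul_sum]
    rw [Finset.sum_comm]
    refine Finset.sum_congr rfl (fun b hb => ?_)
    have := S.hU1 b (hB hb)
    calc ∑ v ∈ S.V, S.lam v * (μ b * b v) = μ b * ∑ v ∈ S.V, S.lam v * b v := by
          rw [Finset.mul_sum]
          exact Finset.sum_congr rfl (fun v _ => by ring)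
      _ = μ b := by rw [this, mul_one]
  have hf : 4 * s ≤ 2 * p + B.card := by
    have h1 := Finset.sum_le_card_nsmul B μ (1 / 2) hhalf
    rw [← hcount, nsmul_eq_mul] at h1
    have h2 : (4 * s : ℝ) ≤ 2 * p + B.card := by linarith
    exact_mod_cast h2
  let Y : Submodule ℝ E := Submodule.span ℝ {v | ∃ i, v ∈ F.Vi i}
  have hY : ∀ i, ∀ v ∈ F.Vi i, v ∈ Y := fun i v hv => Submodule.subset_span ⟨i, hv⟩
  have hWY : F.W Finset.univ ≤ Y := by
    apply Submodule.span_le.mpr
    rintro x ⟨i, -, v, hv, v', hv', rfl⟩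
    exact Y.sub_mem (hY i v hv) (hY i v' hv')
  have d1 := finrank_add_card_le _ _ hWY F.uu (by
      rw [Fintype.linearIndependent_iff]
      intro g hg k
      obtain ⟨v, hv⟩ := F.Vi_nonempty k
      have := congrArg (fun φ : Dual ℝ Y => φ ⟨v, hY k v hv⟩) hg
      simp only [LinearMap.sum_apply, LinearMap.smul_apply, LinearMap.domRestrict_apply,
        smul_eq_mul, F.uu_of_mem hv] at this
      simpa using this) (by
      intro i
      apply F.vanish_W
      rintro k - ⟨v, hv, v', hv', hne⟩
      exact hne (by rw [F.uu_of_mem hv, F.uu_of_mem hv']))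
  have d2 := finrank_add_card_le Y ⊤ le_top (fun b : B => (b : Dual ℝ E)) (by
      rw [Fintype.linearIndependent_iff] at hind ⊢
      intro g hg
      apply hind g
      ext x
      have := congrArg (fun φ : Dual ℝ (⊤ : Submodule ℝ E) => φ ⟨x, trivial⟩) hg
      simpa [LinearMap.sum_apply] using this) (by
      intro b x hx
      have : Y ≤ LinearMap.ker (b : Dual ℝ E) := by
        apply Submodule.span_le.mpr
        rintro v ⟨i, hv⟩
        have hv' := F.mem_Vi.mp hv
        have h1 := hle b b.2 v hv'.1
        have h2 : w v = 0 := by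
          rw [hwv v hv'.1]
          simp [F.uu_of_mem hv]
        have h3 := S.nonneg (hB b.2) hv'.1
        have h4 := hμ b b.2
        rw [h2] at h1
        have h5 : (b : Dual ℝ E) v ≤ 0 := by
          by_contra h6
          push Not at h6
          nlinarith
        exact le_antisymm h5 h3
      exact this hx)
  have d3 := F.card_le_two_mul Finset.univ
  simp only [Fintype.card_fin, Finset.card_univ, Fintype.card_coe, finrank_top, hdim] at d1 d2 d3
  have hB0 : B.card = 0 := by omega
  have hp : p = 2 * s := by omega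
  have he : finrank ℝ (F.W Finset.univ) = s := by omega
  subst hp
  refine ⟨F, fun v hv => ?_, by rw [he, Fintype.card_fin]⟩
  have := hwB v
  rw [Finset.card_eq_zero.mp hB0, hwv v hv] at this
  simp only [Finset.sum_empty] at this
  linarith

end Setup

end Pool.Agent.P.MP_92a118_co
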