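import Mathlib
import Pool.Agent.P.MP_92a118_co.Core3

/-! The structure theorem in the extremal case. -/

namespace Pool.Agent.P.MP_92a118_co

open Module Finset

variable {E : Type} [AddCommGroup E] [Module ℝ E] [FiniteDimensional ℝ E]

namespace Setup.Fam

variable {S : Setup E} {I : Type} [Fintype I] [DecidableEq I] (F : S.Fam I)

theorem eq_zero_of_sees (htight : Fintype.card I = 2 * finrank ℝ (F.W Finset.univ))
    {u : Dual ℝ E} (hu : u ∈ S.U) {i k : I} (hi : F.Sees u i) (hk : F.Sees u k) {x : E}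
    (hx : x ∈ F.W {i, k}) (h0 : u x = 0) : x = 0 := by
  apply S.separates
  intro u' hu'
  have hx' : x ∈ F.W Finset.univ := F.W_mono (Finset.subset_univ _) hx
  by_cases h1 : F.Sees u' i
  · obtain ⟨t, ht⟩ := F.proportional htight hu hu' hi h1
    rw [ht x hx', h0, mul_zero]
  by_cases h2 : F.Sees u' k
  · obtain ⟨t, ht⟩ := F.proportional htight hu hu' hk h2
    rw [ht x hx', h0, mul_zero]
  refine F.vanish_W (J := {i, k}) ?_ x hx
  intro j hj
  simp only [Finset.mem_insert, Finset.mem_singleton] at hj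
  rcases hj with rfl | rfl
  exacts [h1, h2]

theorem two_points (htight : Fintype.card I = 2 * finrank ℝ (F.W Finset.univ))
    {u : Dual ℝ E} (hu : u ∈ S.U) {i : I} (hi : F.Sees u i) :
    ∃ lo ∈ F.Vi i, ∃ hi ∈ F.Vi i, u hi = u lo + 1 ∧ ∀ v ∈ F.Vi i, v = lo ∨ v = hi := by
  obtain ⟨lo, hlo, h0⟩ := F.exists_mn u i
  obtain ⟨hi', hhi, h1⟩ := F.exists_gap hu hi
  have hw := (F.tight_circuit htight hu hi).2
  have hinj : ∀ v ∈ F.Vi i, ∀ v' ∈ F.Vi i, u v = u v' → v = v' := by
    intro v hv v' hv' h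
    rw [← sub_eq_zero]
    apply F.eq_zero_of_sees htight hu hi hi (F.sub_mem_W (by simp) hv hv')
    rw [map_sub, h, sub_self]
  have h2 : u hi' = u lo + 1 := by
    have := hw hi' hhi lo hlo
    rw [h0] at h1
    linarith
  refine ⟨lo, hlo, hi', hhi, h2, fun v hv => ?_⟩
  have h3 := F.mn_le u hv
  have h4 := hw v hv lo hlo
  rw [h0] at h3
  obtain ⟨k, hk⟩ := S.hint u hu v (F.mem_Vi.mp hv).1
  obtain ⟨k0, hk0⟩ := S.hint u hu lo (F.mem_Vi.mp hlo).1
  have h5 : k0 ≤ k := by rw [hk, hk0] at h3; exact_mod_cast h3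
  have h6 : k ≤ k0 + 1 := by rw [hk, hk0] at h4; exact_mod_cast h4
  rcases (by omega : k = k0 ∨ k = k0 + 1) with h | h
  · left; apply hinj v hv lo hlo; rw [hk, hk0, h]
  · right; apply hinj v hv hi' hhi; rw [h2, hk, hk0, h]; push_cast; ring

theorem exists_partner (htight : Fintype.card I = 2 * finrank ℝ (F.W Finset.univ))
    {u : Dual ℝ E} (hu : u ∈ S.U) {i : I} (hi : F.Sees u i) :
    ∃ k, k ≠ i ∧ F.Sees u k ∧ ∀ l, F.Sees u l → l = i ∨ l = k := by
  classical
  obtain ⟨a, b, hab, hset⟩ := Finset.card_eq_two.mp (F.tight_circuit htight hu hi).1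
  have hiff : ∀ l, F.Sees u l ↔ l = a ∨ l = b := by
    intro l
    have := congrArg (fun T : Finset I => l ∈ T) hset
    simpa using this
  rcases (hiff i).mp hi with rfl | rfl
  · exact ⟨b, hab.symm, (hiff b).mpr (Or.inr rfl), fun l hl => (hiff l).mp hl⟩
  · exact ⟨a, hab, (hiff a).mpr (Or.inl rfl), fun l hl => ((hiff l).mp hl).symm⟩

end Setup.Fam

namespace Setup

variable (S : Setup E)

theorem structure_thm {s : ℕ} (hdim : finrank ℝ E = 3 * s)
    (hr : ∑ v ∈ S.V, S.lam v = 2 * s) :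
    ∃ (uu : Fin s ⊕ Fin s → Dual ℝ E) (a : Fin s → Dual ℝ E) (b : Fin s ⊕ Fin s → E)
      (e : Fin s → E), (∀ k, uu k ∈ S.U) ∧ (∀ j, a j ∈ S.U) ∧
      (∀ k k', uu k (b k') = if k = k' then 1 else 0) ∧ (∀ k j, uu k (e j) = 0) ∧
      (∀ j j', a j (e j') = if j = j' then 1 else 0) ∧
      ∀ v, v ∈ S.V ↔ (∃ k, v = b k) ∨ (∃ j, v = b (Sum.inl j) + e j) ∨
        (∃ j, v = b (Sum.inr j) - e j) := by
  classical
  obtain ⟨F, hone, htight⟩ := S.exists_tight hdim hr
  choose a ha hsa using F.exists_sees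
  choose π hπne hπs hπall using fun i => F.exists_partner htight (ha i) (hsa i)
  have hinv : ∀ i, π (π i) = i := by
    intro i
    have h1 : F.Sees (a (π i)) i :=
      F.sees_iff htight (ha (π i)) (ha i) (hsa (π i)) (hπs i) (hsa i)
    rcases hπall (π i) i h1 with h | h
    · exact absurd h.symm (hπne i)
    · exact h.symm
  obtain ⟨ρ, hρ⟩ := exists_pairing π hπne hinv
  set ι : Fin s ⊕ Fin s → Fin (2 * s) := Sum.elim ρ (fun j => π (ρ j)) with hι
  choose lo hlo hi hhi hdiff hall using fun j => F.two_points htight (ha (ρ j)) (hsa (ρ j))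
  choose lo' hlo' hi' hhi' hdiff' hall' using
    fun j => F.two_points htight (ha (ρ j)) (hπs (ρ j))
  have hsame : ∀ j, hi' j - lo' j = hi j - lo j := by
    intro j
    rw [← sub_eq_zero]
    apply F.eq_zero_of_sees htight (ha (ρ j)) (hsa (ρ j)) (hπs (ρ j))
    · exact Submodule.sub_mem _ (F.sub_mem_W (by simp) (hhi' j) (hlo' j))
        (F.sub_mem_W (by simp) (hhi j) (hlo j))
    · simp only [map_sub, hdiff, hdiff']
      ring
  have hb : ∀ k, Sum.elim lo hi' k ∈ F.Vi (ι k) := by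
    rintro (j | j)
    exacts [hlo j, hhi' j]
  refine ⟨fun k => F.uu (ι k), fun j => a (ρ j), Sum.elim lo hi', fun j => hi j - lo j,
    fun k => F.huu _, fun j => ha _, ?_, ?_, ?_, ?_⟩
  · intro k k'
    rw [F.uu_of_mem (hb k')]
    simp only [hρ.1.eq_iff]
  · intro k j
    rw [map_sub, F.uu_of_mem (hhi j), F.uu_of_mem (hlo j), sub_self]
  · intro j j'
    split_ifs with h
    · subst h
      rw [map_sub, hdiff]; ring
    · have hns : ¬ F.Sees (a (ρ j)) (ρ j') := by
        intro hs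
        rcases hπall (ρ j) (ρ j') hs with h1 | h1
        · have : ι (Sum.inl j') = ι (Sum.inl j) := h1
          exact h (Sum.inl_injective (hρ.1 this)).symm
        · have : ι (Sum.inl j') = ι (Sum.inr j) := h1
          exact Sum.inl_ne_inr (hρ.1 this)
      by_contra hne
      apply hns
      refine ⟨hi j', hhi j', lo j', hlo j', fun h2 => hne ?_⟩
      rw [map_sub, h2, sub_self]
  · intro v
    constructor
    · intro hv
      have : ∃ i, v ∈ F.Vi i := by
        by_contra hcon
        push Not at hcon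
        have h1 := hone v hv
        rw [Finset.sum_eq_zero] at h1
        · exact zero_ne_one h1
        intro i _
        rcases F.uu_zero_or_one i hv with h | h
        · exact h
        · exact absurd (F.mem_Vi.mpr ⟨hv, h⟩) (hcon i)
      obtain ⟨i, hi⟩ := this
      obtain ⟨k, rfl⟩ := hρ.2 i
      rcases k with j | j
      · rcases hall j v hi with h | h
        · exact Or.inl ⟨Sum.inl j, h⟩
        · exact Or.inr (Or.inl ⟨j, by simp [h]⟩)
      · rcases hall' j v hi with h | h
        · refine Or.inr (Or.inr ⟨j, ?_⟩)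
          simp only [Sum.elim_inr]
          rw [← hsame j, h]; abel
        · exact Or.inl ⟨Sum.inr j, h⟩
    · rintro (⟨k, rfl⟩ | ⟨j, rfl⟩ | ⟨j, rfl⟩)
      · exact (F.mem_Vi.mp (hb k)).1
      · simpa using (F.mem_Vi.mp (hhi j)).1
      · simp only [Sum.elim_inr]
        rw [← hsame j]
        simpa using (F.mem_Vi.mp (hlo' j)).1

end Setup

end Pool.Agent.P.MP_92a118_co
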