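import Mathlib
import Pool.Agent.P.MP_92a118_co.Bridge2

/-! The uniqueness theorem. -/

namespace Pool.Agent.P.MP_92a118_co

open Module Finset

theorem cayleyC_eq (s : ℕ) : cayleyC s = convexHull ℝ
    {w : Fin s ⊕ (Fin s ⊕ Fin s) → ℝ | (∃ k, w = Pi.single (Sum.inr k) 1) ∨
      (∃ j, w = Pi.single (Sum.inr (Sum.inl j)) 1 + Pi.single (Sum.inl j) 1) ∨
      (∃ j, w = Pi.single (Sum.inr (Sum.inr j)) 1 - Pi.single (Sum.inl j) 1)} := by
  have hA : ∀ k : Fin s ⊕ Fin s, ∃ A : (Fin s → ℝ) →ᵃ[ℝ] (Fin s ⊕ (Fin s ⊕ Fin s) → ℝ),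
      (fun x => Sum.elim x (Pi.single k 1)) = A := by
    intro k
    refine ⟨{ toFun := fun x => Sum.elim x (Pi.single k 1)
              linear := { toFun := fun x => Sum.elim x 0
                          map_add' := fun x y => by ext (i | i) <;> simp
                          map_smul' := fun c x => by ext (i | i) <;> simp }
              map_vadd' := fun p v => by ext (i | i) <;> simp }, rfl⟩
  have e0 : ∀ k : Fin s ⊕ Fin s, (Sum.elim (0 : Fin s → ℝ) (Pi.single k 1) :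
      Fin s ⊕ (Fin s ⊕ Fin s) → ℝ) = Pi.single (Sum.inr k) 1 := by
    intro k; ext (i | i) <;> simp [Pi.single_apply]
  have e1 : ∀ (j : Fin s) (k : Fin s ⊕ Fin s), (Sum.elim (Pi.single j 1 : Fin s → ℝ)
      (Pi.single k 1) : Fin s ⊕ (Fin s ⊕ Fin s) → ℝ)
        = Pi.single (Sum.inr k) 1 + Pi.single (Sum.inl j) 1 := by
    intro j k; ext (i | i) <;> simp [Pi.single_apply]
  have e2 : ∀ (j : Fin s) (k : Fin s ⊕ Fin s), (Sum.elim (-Pi.single j 1 : Fin s → ℝ)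
      (Pi.single k 1) : Fin s ⊕ (Fin s ⊕ Fin s) → ℝ)
        = Pi.single (Sum.inr k) 1 - Pi.single (Sum.inl j) 1 := by
    intro j k; ext (i | i) <;> simp [Pi.single_apply]
  unfold cayleyC cayley
  apply Set.Subset.antisymm
  · apply convexHull_min _ (convex_convexHull ℝ _)
    apply Set.iUnion_subset
    intro k
    obtain ⟨A, hA⟩ := hA k
    rcases k with j | j
    · simp only [Sum.elim_inl]
      rw [hA, AffineMap.image_convexHull, ← hA]
      apply convexHull_mono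
      rintro _ ⟨x, hx | hx, rfl⟩
      · left; exact ⟨_, by rw [hx]; exact e0 _⟩
      · right; left; exact ⟨j, by rw [hx]; exact e1 _ _⟩
    · simp only [Sum.elim_inr]
      rw [hA, AffineMap.image_convexHull, ← hA]
      apply convexHull_mono
      rintro _ ⟨x, hx | hx, rfl⟩
      · left; exact ⟨_, by rw [hx]; exact e0 _⟩
      · right; right; exact ⟨j, by rw [hx]; exact e2 _ _⟩
  · apply convexHull_mono
    rintro w (⟨k, rfl⟩ | ⟨j, rfl⟩ | ⟨j, rfl⟩)
    · refine Set.mem_iUnion.mpr ⟨k, 0, ?_, e0 k⟩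
      rcases k with j | j <;> exact subset_convexHull ℝ _ (by simp)
    · exact Set.mem_iUnion.mpr ⟨Sum.inl j, Pi.single j 1, subset_convexHull ℝ _ (by simp), e1 _ _⟩
    · exact Set.mem_iUnion.mpr ⟨Sum.inr j, -Pi.single j 1, subset_convexHull ℝ _ (by simp), e2 _ _⟩

theorem IsLat.add {d : ℕ} {p q : ℝ × (Fin d → ℝ)} (hp : IsLat p) (hq : IsLat q) :
    IsLat (p + q) := by
  obtain ⟨⟨a, ha⟩, hp⟩ := hp
  obtain ⟨⟨b, hb⟩, hq⟩ := hq
  exact ⟨⟨a + b, by simp [ha, hb]⟩, hp.add hq⟩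

theorem IsLat.sub {d : ℕ} {p q : ℝ × (Fin d → ℝ)} (hp : IsLat p) (hq : IsLat q) :
    IsLat (p - q) := by
  obtain ⟨⟨a, ha⟩, hp⟩ := hp
  obtain ⟨⟨b, hb⟩, hq⟩ := hq
  exact ⟨⟨a - b, by simp [ha, hb]⟩, hp.sub hq⟩

theorem IsLat.smul {d : ℕ} {p : ℝ × (Fin d → ℝ)} (hp : IsLat p) (z : ℤ) :
    IsLat ((z : ℝ) • p) := by
  obtain ⟨⟨a, ha⟩, hp⟩ := hp
  refine ⟨⟨z * a, by simp [ha]⟩, fun i => ?_⟩
  obtain ⟨b, hb⟩ := hp i
  exact ⟨z * b, by simp [hb]⟩

theorem IsLat.sum {d : ℕ} {ι : Type} (t : Finset ι) (p : ι → ℝ × (Fin d → ℝ))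
    (hp : ∀ i, IsLat (p i)) : IsLat (∑ i ∈ t, p i) :=
  Finset.sum_induction p IsLat (fun _ _ ha hb => ha.add hb)
    ⟨⟨0, by simp⟩, fun i => ⟨0, by simp⟩⟩ (fun i _ => hp i)

theorem unique_extremal (s d r : ℕ) (hs : 1 ≤ s) (hd : d + 1 = 3 * s) (hr : r = 2 * s)
    (P : Set (Fin d → ℝ)) (hP : IsLatticePolytope P) (m0 : Fin d → ℝ)
    (hQ : IsReflexive ((fun x => (r : ℝ) • x - m0) '' P)) (hpyr : ¬ IsLatticePyramid P) :
    LatticeIso P (cayleyC s) := by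
  classical
  obtain ⟨S, hS, rfl⟩ := hP
  obtain ⟨Z, hV, hlam, hU⟩ := exists_setup (by omega) S hS (by omega) m0 hQ hpyr
  have hdim : finrank ℝ (ℝ × (Fin d → ℝ)) = 3 * s := by
    simp; omega
  obtain ⟨uu, a, b, e, huu, ha, hub, hue, hae, hall⟩ := Z.structure_thm hdim
    (by rw [hlam, hr]; push_cast; ring)
  have hVlat : ∀ v ∈ Z.V, IsLat v := by
    intro v hv
    obtain ⟨x, hx, rfl⟩ := (hV v).mp hv
    exact ⟨⟨1, by simp⟩, hS x hx⟩
  have hb : ∀ k, IsLat (b k) := fun k => hVlat _ ((hall _).mpr (Or.inl ⟨k, rfl⟩))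
  have he : ∀ j, IsLat (e j) := fun j => by
    have := (hVlat _ ((hall _).mpr (Or.inr (Or.inl ⟨j, rfl⟩)))).sub (hb (Sum.inl j))
    simpa using this
  let α : Fin s → Dual ℝ (ℝ × (Fin d → ℝ)) := fun j => a j - ∑ k, a j (b k) • uu k
  let Φ : (ℝ × (Fin d → ℝ)) →ₗ[ℝ] (Fin s ⊕ (Fin s ⊕ Fin s) → ℝ) :=
    LinearMap.pi (Sum.elim α uu)
  have hΦb : ∀ k, Φ (b k) = Pi.single (Sum.inr k) 1 := by
    intro k
    ext (j | k')
    · rcases k with k | k <;> simp [Φ, α, LinearMap.sum_apply, hub]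
    · simp [Φ, hub, Pi.single_apply]
  have hΦe : ∀ j, Φ (e j) = Pi.single (Sum.inl j) 1 := by
    intro j
    ext (j' | k')
    · simp [Φ, α, LinearMap.sum_apply, hue, hae, Pi.single_apply]
    · simp [Φ, hue]
  let Ψ : (Fin s ⊕ (Fin s ⊕ Fin s) → ℝ) → (ℝ × (Fin d → ℝ)) :=
    fun w => ∑ t, w t • Sum.elim e b t
  have hΦΨ : ∀ w, Φ (Ψ w) = w := by
    intro w
    have : ∀ t, Φ (Sum.elim e b t) = Pi.single t 1 := by
      rintro (j | k)
      exacts [hΦe j, hΦb k]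
    simp only [Ψ, map_sum, map_smul, this]
    ext t
    simp [Finset.sum_apply, Pi.single_apply]
  have hinj : Function.Injective Φ := by
    rw [LinearMap.injective_iff_surjective_of_finrank_eq_finrank (by rw [hdim]; simp; omega)]
    exact fun w => ⟨Ψ w, hΦΨ w⟩
  let f : (Fin d → ℝ) →ᵃ[ℝ] (Fin s ⊕ (Fin s ⊕ Fin s) → ℝ) :=
    { toFun := fun x => Φ (1, x)
      linear := Φ ∘ₗ LinearMap.inr ℝ ℝ (Fin d → ℝ)
      map_vadd' := fun p v => by
        simp only [vadd_eq_add, LinearMap.comp_apply, LinearMap.inr_apply, ← map_add]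
        simp }
  have hf : ∀ x, f x = Φ (1, x) := fun x => rfl
  have key : cayleyC s = f '' convexHull ℝ (S : Set (Fin d → ℝ)) := by
    rw [cayleyC_eq, AffineMap.image_convexHull]
    congr 1
    ext w
    simp only [Set.mem_ofPred_eq, Set.mem_image, Finset.mem_coe, hf]
    constructor
    · intro hw
      have : ∃ v ∈ Z.V, Φ v = w := by
        rcases hw with ⟨k, rfl⟩ | ⟨j, rfl⟩ | ⟨j, rfl⟩
        · exact ⟨_, (hall _).mpr (Or.inl ⟨k, rfl⟩), hΦb k⟩
        · exact ⟨_, (hall _).mpr (Or.inr (Or.inl ⟨j, rfl⟩)), by rw [map_add, hΦb, hΦe]⟩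
        · exact ⟨_, (hall _).mpr (Or.inr (Or.inr ⟨j, rfl⟩)), by rw [map_sub, hΦb, hΦe]⟩
      obtain ⟨v, hv, rfl⟩ := this
      obtain ⟨x, hx, rfl⟩ := (hV v).mp hv
      exact ⟨x, hx, rfl⟩
    · rintro ⟨x, hx, rfl⟩
      rcases (hall _).mp ((hV _).mpr ⟨x, hx, rfl⟩) with ⟨k, h⟩ | ⟨j, h⟩ | ⟨j, h⟩
      · left; exact ⟨k, by rw [h, hΦb]⟩
      · right; left; exact ⟨j, by rw [h, map_add, hΦb, hΦe]⟩
      · right; right; exact ⟨j, by rw [h, map_sub, hΦb, hΦe]⟩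
  rw [key]
  apply latticeIso_image
  · intro x x' h
    rw [hf, hf] at h
    exact (Prod.ext_iff.mp (hinj h)).2
  · intro x
    rw [hf]
    constructor
    · intro h
      have h1 : ((1 : ℝ), x) = Ψ (Φ (1, x)) := hinj (hΦΨ _).symm
      have h2 : IsLat (Ψ (Φ (1, x))) := by
        apply IsLat.sum
        intro t
        obtain ⟨z, hz⟩ := h t
        rw [hz]
        apply IsLat.smul
        rcases t with j | k
        exacts [he j, hb k]
      rw [← h1] at h2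
      exact h2.2
    · intro h
      have hx : IsLat ((1 : ℝ), x) := ⟨⟨1, by simp⟩, h⟩
      rintro (j | k)
      · choose z hz using fun k => hU _ (ha j) _ (hb k)
        choose z' hz' using fun k => hU _ (huu k) _ hx
        obtain ⟨z0, hz0⟩ := hU _ (ha j) _ hx
        refine ⟨z0 - ∑ k, z k * z' k, ?_⟩
        simp only [Φ, α, LinearMap.pi_apply, Sum.elim_inl, LinearMap.sub_apply,
          LinearMap.sum_apply, LinearMap.smul_apply, smul_eq_mul, hz, hz', hz0]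
        push_cast
        rfl
      · exact hU _ (huu k) _ hx

end Pool.Agent.P.MP_92a118_co
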